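import Pool.Agent.H741.EL.Stm

/-!
# Project EL (MP_7791e4_an): part ZZ, normal directions of the convex body at the point of the ellipse
-/

set_option autoImplicit false
open MeasureTheory Metric Set Filter Topology

namespace Pool.Agent.H727.EL
open Pool.Agent.Y508 Pool.Agent.H741.EL

/-- two parameters of the same point of the ellipse differ by less than a full turn only if they agree -/
theorem no_turn {θ θ' : ℝ} (h : ∃ k : ℤ, θ' = θ + k * (2 * Real.pi)) (h1 : θ - Real.pi < θ')
    (h2 : θ' < θ + Real.pi) : θ' = θ := by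
  obtain ⟨k, hk⟩ := h
  have hpi := Real.pi_pos
  have h3 : (-1 : ℝ) < (k : ℝ) := by
    by_contra hc
    push Not at hc
    nlinarith
  have h4 : (k : ℝ) < 1 := by
    by_contra hc
    push Not at hc
    nlinarith
  have h5 : (-1 : ℤ) < k := by exact_mod_cast h3
  have h6 : k < (1 : ℤ) := by exact_mod_cast h4
  have h7 : k = 0 := by omega
  rw [hk, h7]
  simp

theorem t_ZZ (_h1 : S_ELL) (h2 : S_QQ) : S_ZZ := by
  intro a b p K θp α β hC hp hA
  obtain ⟨_, q2, _, _, q5, _, q7, _, _⟩ := h2 a b hC.hb hC.hab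
  have hpi := Real.pi_pos
  have hK : IsCompact K := hC.body.cpt
  have hne : K.Nonempty := hC.body.ne
  have hpE : p ∈ Ell a b := hC.sub hC.mem
  have hon : hs K θp = ip p θp := by
    rw [hA.on θp ⟨hA.h1, hA.h2⟩, hp, q2 θp]
  refine ⟨fun hα θ hθ => ?_, fun hβ θ hθ => ?_⟩
  · obtain ⟨hl, hr⟩ := hθ
    by_contra hcon
    have heq : hs K θ = ip p θ := le_antisymm (not_lt.1 hcon) (le_hs hK hC.mem θ)
    rcases hl.eq_or_lt with he | hl'
    · have hw := width_pos hC.body (θp - Real.pi)
      rw [sub_add_cancel, hon, he, heq, ← he, ip_sub_pi] at hw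
      linarith
    · obtain ⟨θ', g1, g2⟩ : ∃ θ', max α θ < θ' ∧ θ' < θp := exists_between (max_lt hα hr)
      have g3 : α < θ' := lt_of_le_of_lt (le_max_left _ _) g1
      have g4 : θ < θ' := lt_of_le_of_lt (le_max_right _ _) g1
      have s1 : 0 < Real.sin (θp - θ) := Real.sin_pos_of_pos_of_lt_pi (by linarith) (by linarith)
      have s2 : 0 < Real.sin (θp - θ') := Real.sin_pos_of_pos_of_lt_pi (by linarith) (by linarith)
      have s3 : 0 < Real.sin (θ' - θ) := Real.sin_pos_of_pos_of_lt_pi (by linarith) (by linarith)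
      have h3 := hs_arc hK hne s2.le s3.le
      rw [heq, hon, ← ip_arc] at h3
      have h4 : hs K θ' ≤ ip p θ' := le_of_mul_le_mul_left h3 s1
      rw [hA.on θ' ⟨g3.le, g2.le.trans hA.h2⟩] at h4
      have h5 := q5 θ' p hpE h4
      have h6 := no_turn (q7 θp θ' (hp ▸ h5)) (by linarith) (by linarith)
      linarith
  · obtain ⟨hl, hr⟩ := hθ
    by_contra hcon
    have heq : hs K θ = ip p θ := le_antisymm (not_lt.1 hcon) (le_hs hK hC.mem θ)
    rcases hr.eq_or_lt with he | hr'
    · have hw := width_pos hC.body θp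
      rw [hon, ← he, heq, he, ip_add_pi] at hw
      linarith
    · obtain ⟨θ', g1, g2⟩ : ∃ θ', θp < θ' ∧ θ' < min β θ := exists_between (lt_min hβ hl)
      have g3 : θ' < β := lt_of_lt_of_le g2 (min_le_left _ _)
      have g4 : θ' < θ := lt_of_lt_of_le g2 (min_le_right _ _)
      have s1 : 0 < Real.sin (θ - θp) := Real.sin_pos_of_pos_of_lt_pi (by linarith) (by linarith)
      have s2 : 0 < Real.sin (θ - θ') := Real.sin_pos_of_pos_of_lt_pi (by linarith) (by linarith)
      have s3 : 0 < Real.sin (θ' - θp) := Real.sin_pos_of_pos_of_lt_pi (by linarith) (by linarith)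
      have h3 := hs_arc hK hne s2.le s3.le
      rw [heq, hon, ← ip_arc] at h3
      have h4 : hs K θ' ≤ ip p θ' := le_of_mul_le_mul_left h3 s1
      rw [hA.on θ' ⟨hA.h1.trans g1.le, g3.le⟩] at h4
      have h5 := q5 θ' p hpE h4
      have h6 := no_turn (q7 θp θ' (hp ▸ h5)) (by linarith) (by linarith)
      linarith

end Pool.Agent.H727.EL
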